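import Pool.Agent.W670.TL.Defs

set_option autoImplicit false

/-!
# Project TL, part INJ
-/

namespace Pool.Agent.W349.TL

open NumberField Pool.Agent.W670.TL

open scoped nonZeroDivisors

theorem ker_pow (K M : Type) [Field K] [NumberField K] [Field M] [NumberField M] [Algebra K M]
    (x : ClassGroup (𝓞 K)) (hx : ClassGroup.extendedHom (𝓞 K) (𝓞 M) x = 1) :
    x ^ Module.finrank K M = 1 := by
  obtain ⟨I, rfl⟩ := ClassGroup.mk0_surjective x
  rw [ClassGroup.extendedHom_mk0, ClassGroup.mk0_eq_one_iff] at hx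
  obtain ⟨α, hα⟩ := hx
  have hα' : (I : Ideal (𝓞 K)).map (algebraMap (𝓞 K) (𝓞 M)) = Ideal.span {α} := hα
  have h1 := Ideal.relNorm_algebraMap (𝓞 M) (I : Ideal (𝓞 K))
  rw [hα', Ideal.relNorm_singleton,
    ← IsFractionRing.finrank_eq (𝓞 K) K (𝓞 M) M] at h1
  rw [← map_pow, ClassGroup.mk0_eq_one_iff]
  exact ⟨Algebra.intNorm (𝓞 K) (𝓞 M) α, h1.symm⟩

theorem inj : S_INJ := by
  intro K M _ _ _ _ _ ℓ hcop
  unfold tors
  let f : {x : ClassGroup (𝓞 K) // x ^ ℓ = 1} → {x : ClassGroup (𝓞 M) // x ^ ℓ = 1} :=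
    fun x => ⟨ClassGroup.extendedHom (𝓞 K) (𝓞 M) x.1, by rw [← map_pow, x.2, map_one]⟩
  refine Nat.card_le_card_of_injective f ?_
  intro x y hxy
  have h1 : ClassGroup.extendedHom (𝓞 K) (𝓞 M) x.1 = ClassGroup.extendedHom (𝓞 K) (𝓞 M) y.1 :=
    congrArg Subtype.val hxy
  have h2 : ClassGroup.extendedHom (𝓞 K) (𝓞 M) (x.1 / y.1) = 1 := by
    rw [map_div, h1, div_self']
  have h3 := ker_pow K M _ h2
  have h4 : (x.1 / y.1) ^ ℓ = 1 := by
    rw [div_pow, x.2, y.2, div_one]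
  have h5 := pow_gcd_eq_one.mpr ⟨h3, h4⟩
  rw [hcop, pow_one] at h5
  exact Subtype.ext (div_eq_one.mp h5)

end Pool.Agent.W349.TL
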